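import Pool.Agent.K1H25.HF.Stm

/-!
MP_da1489_an: geometry of the net.
-/

namespace K1H43.HFN

open K1H25.HF hiding sq

variable {n : ℕ}

/-- the Euclidean norm -/
noncomputable def nn (v : Fin n → ℝ) : ℝ := ‖(WithLp.toLp 2 v : EuclideanSpace ℝ (Fin n))‖

theorem nn_nonneg (v : Fin n → ℝ) : 0 ≤ nn v := norm_nonneg _

theorem nn_sq (v : Fin n → ℝ) : nn v ^ 2 = ∑ i, v i ^ 2 := by
  unfold nn
  rw [EuclideanSpace.norm_sq_eq]
  simp

theorem nn_add (u v : Fin n → ℝ) : nn (u + v) ≤ nn u + nn v := by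
  unfold nn
  rw [WithLp.toLp_add]
  exact norm_add_le _ _

theorem nn_smul (c : ℝ) (v : Fin n → ℝ) : nn (c • v) = |c| * nn v := by
  unfold nn
  rw [WithLp.toLp_smul, norm_smul, Real.norm_eq_abs]

theorem nn_neg (v : Fin n → ℝ) : nn (-v) = nn v := by
  unfold nn
  rw [WithLp.toLp_neg, norm_neg]

theorem nn_comm (u v : Fin n → ℝ) : nn (u - v) = nn (v - u) := by
  rw [← nn_neg, neg_sub]

theorem nn_tri (u v w : Fin n → ℝ) : nn (u - w) ≤ nn (u - v) + nn (v - w) := by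
  have := nn_add (u - v) (v - w)
  rwa [sub_add_sub_cancel] at this

theorem nn_le_of_sq {v : Fin n → ℝ} {c : ℝ} (hc : 0 ≤ c) (h : ∑ i, v i ^ 2 ≤ c ^ 2) : nn v ≤ c := by
  rw [← nn_sq] at h
  exact le_of_sq_le_sq h hc

theorem abs_le_nn (v : Fin n → ℝ) (i : Fin n) : |v i| ≤ nn v := by
  apply abs_le_of_sq_le_sq _ (nn_nonneg _)
  rw [nn_sq]
  exact Finset.single_le_sum (f := fun i => v i ^ 2) (fun _ _ => sq_nonneg _) (Finset.mem_univ i)

/-- the square of a difference of square roots -/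
theorem sq_sqrt_sub_le {x y : ℝ} (hx : 0 ≤ x) (hy : 0 ≤ y) : (Real.sqrt x - Real.sqrt y) ^ 2 ≤ |x - y| := by
  have hx' := Real.sqrt_nonneg x
  have hy' := Real.sqrt_nonneg y
  have h1 : x - y = (Real.sqrt x - Real.sqrt y) * (Real.sqrt x + Real.sqrt y) := by
    nlinarith [Real.sq_sqrt hx, Real.sq_sqrt hy]
  rw [h1, abs_mul, ← sq_abs (Real.sqrt x - Real.sqrt y), sq]
  apply mul_le_mul_of_nonneg_left _ (abs_nonneg _)
  rw [abs_of_nonneg (add_nonneg hx' hy')]
  rw [abs_le]; constructor <;> linarith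

/-- real vector of directions -/
noncomputable def uv (k : MI n) : Fin n → ℝ := fun i => Real.sqrt ((k i : ℝ) / (tot k : ℝ))

/-- real vector -/
def rv (b : MI n) : Fin n → ℝ := fun i => (b i : ℝ)

theorem hell2_eq (u v : MI n) : hell2 u v = nn (uv u - uv v) ^ 2 := by
  rw [nn_sq]; rfl

theorem uv_sq (k : MI n) (i : Fin n) : uv k i ^ 2 = (k i : ℝ) / (tot k : ℝ) :=
  Real.sq_sqrt (by positivity)

theorem tot_cast (k : MI n) : ((tot k : ℕ) : ℝ) = ∑ i, (k i : ℝ) := by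
  unfold tot; push_cast; rfl

theorem nn_uv (k : MI n) (hk : 0 < tot k) : nn (uv k) = 1 := by
  have h : nn (uv k) ^ 2 = 1 := by
    rw [nn_sq]
    simp only [uv_sq]
    rw [← Finset.sum_div, ← tot_cast, div_self]
    exact_mod_cast hk.ne'
  have h0 := nn_nonneg (uv k)
  nlinarith

theorem nn_rv (b : MI n) : nn (rv b) ^ 2 = (K1H25.HF.sq b : ℝ) := by
  rw [nn_sq]; unfold K1H25.HF.sq rv; push_cast; rfl

/-- facts about a net point -/
theorem net_bounds {T : ℕ} (hT : 4 * n ≤ T) {b : MI n} (hb : b ∈ Net n T) :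
    (T : ℝ) - n ≤ nn (rv b) ∧ nn (rv b) ≤ T := by
  unfold Net at hb
  rw [Finset.mem_filter] at hb
  obtain ⟨_, h1, h2⟩ := hb
  have h1' : ((T - n : ℕ) : ℝ) ^ 2 ≤ nn (rv b) ^ 2 := by rw [nn_rv]; exact_mod_cast h1
  have h2' : nn (rv b) ^ 2 ≤ (T : ℝ) ^ 2 := by rw [nn_rv]; exact_mod_cast h2
  constructor
  · have := le_of_sq_le_sq h1' (nn_nonneg _)
    rwa [Nat.cast_sub (by omega)] at this
  · exact le_of_sq_le_sq h2' (Nat.cast_nonneg _)

/-- distance of the normalisations -/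
theorem net_norm {T : ℕ} (hn : 1 ≤ n) (hT : 4 * n ≤ T) {b : MI n} (hb : b ∈ Net n T) :
    nn ((nn (rv b))⁻¹ • rv b - (T : ℝ)⁻¹ • rv b) ≤ n / T := by
  obtain ⟨h1, h2⟩ := net_bounds hT hb
  have hn' : (1 : ℝ) ≤ n := by exact_mod_cast hn
  have hT' : 4 * (n : ℝ) ≤ T := by exact_mod_cast hT
  have hT0 : (0 : ℝ) < T := by linarith
  have hb0 : 0 < nn (rv b) := by linarith
  rw [← sub_smul, nn_smul, abs_of_nonneg, sub_mul, inv_mul_cancel₀ hb0.ne']
  · rw [le_div_iff₀ hT0, sub_mul, mul_comm (T : ℝ)⁻¹, mul_assoc, inv_mul_cancel₀ hT0.ne']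
    linarith
  · rw [sub_nonneg]
    exact inv_anti₀ hb0 h2

/-- the direction of `lv M b` -/
theorem uv_lv (h3 : S_LV) {T M : ℕ} (hn : 1 ≤ n) (hT : 4 * n ≤ T) (hM : (T ^ 2).factorial ∣ M) (hM0 : 0 < M)
    {b : MI n} (hb : b ∈ Net n T) : uv (lv M b) = (nn (rv b))⁻¹ • rv b := by
  obtain ⟨h1, h2⟩ := h3 n T M b hn hT hM hb
  obtain ⟨g1, g2⟩ := net_bounds hT hb
  have hn' : (1 : ℝ) ≤ n := by exact_mod_cast hn
  have hT' : 4 * (n : ℝ) ≤ T := by exact_mod_cast hT
  have hb0 : 0 < nn (rv b) := by linarith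
  have hsq : (0 : ℝ) < K1H25.HF.sq b := by rw [← nn_rv]; positivity
  have hM0' : (0 : ℝ) < M := by exact_mod_cast hM0
  funext i
  have h2' : (lv M b i : ℝ) * (K1H25.HF.sq b : ℝ) = (M : ℝ) * (b i : ℝ) ^ 2 := by exact_mod_cast h2 i
  unfold uv
  rw [h1]
  have e : (lv M b i : ℝ) / (M : ℝ) = ((nn (rv b))⁻¹ * (b i : ℝ)) ^ 2 := by
    rw [mul_pow, inv_pow, nn_rv, div_eq_iff hM0'.ne', ← mul_right_inj' hsq.ne']
    rw [mul_comm (K1H25.HF.sq b : ℝ), h2']
    field_simp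
  rw [e, Real.sqrt_sq (by positivity)]
  rfl

theorem main_t (h1 : S_KUP) (h2 : S_KLO) (h3 : S_LV) : S_NETK := by
  intro n T M k hn hT hM hM0 hk
  have hn' : (1 : ℝ) ≤ n := by exact_mod_cast hn
  have hT' : 4 * (n : ℝ) ≤ T := by exact_mod_cast hT
  have hT0 : (0 : ℝ) < T := by linarith
  have hM0' : (1 : ℝ) ≤ M := by exact_mod_cast hM0
  have hk' : 4 * (M : ℝ) * (T : ℝ) ^ 2 ≤ (tot k : ℝ) := by exact_mod_cast hk
  have hTsq : (1 : ℝ) ≤ (T : ℝ) ^ 2 := by nlinarith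
  have hMT : (M : ℝ) ≤ M * (T : ℝ) ^ 2 := by nlinarith
  have hK4 : 4 * (M : ℝ) ≤ tot k := by nlinarith
  have hK0 : (0 : ℝ) < tot k := by linarith
  have hK0' : 0 < tot k := by exact_mod_cast hK0
  set b := dir T k with hb
  set K : ℝ := (tot k : ℝ) with hKdef
  -- coordinates of b
  have hfl : ∀ i, (b i : ℝ) ≤ T * uv k i ∧ T * uv k i < (b i : ℝ) + 1 := by
    intro i
    have h0 : 0 ≤ (T : ℝ) * uv k i := mul_nonneg hT0.le (Real.sqrt_nonneg _)
    exact ⟨Nat.floor_le h0, Nat.lt_floor_add_one _⟩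
  have huk : nn (uv k) = 1 := nn_uv k hK0'
  -- distance of `b` from `T u`
  have hd : nn ((T : ℝ) • uv k - rv b) ≤ n := by
    apply nn_le_of_sq (by linarith)
    calc ∑ i, ((T : ℝ) • uv k - rv b) i ^ 2 ≤ ∑ _i : Fin n, (1 : ℝ) := by
          apply Finset.sum_le_sum
          intro i _
          have := hfl i
          have e : ((T : ℝ) • uv k - rv b) i = T * uv k i - b i := rfl
          rw [e]
          nlinarith
      _ = n := by simp
      _ ≤ (n : ℝ) ^ 2 := by nlinarith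
  have hlow : (T : ℝ) - n ≤ nn (rv b) := by
    have := nn_add ((T : ℝ) • uv k - rv b) (rv b)
    rw [sub_add_cancel, nn_smul, huk, abs_of_pos hT0] at this
    linarith
  have hup : nn (rv b) ≤ T := by
    apply nn_le_of_sq hT0.le
    calc ∑ i, rv b i ^ 2 ≤ ∑ i, (T : ℝ) ^ 2 * uv k i ^ 2 := by
          apply Finset.sum_le_sum
          intro i _
          rw [← mul_pow]
          exact pow_le_pow_left₀ (Nat.cast_nonneg _) (hfl i).1 2
      _ = (T : ℝ) ^ 2 := by rw [← Finset.mul_sum, ← nn_sq, huk]; ring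
  have hbN : b ∈ Net n T := by
    unfold Net
    rw [Finset.mem_filter, Fintype.mem_piFinset]
    refine ⟨fun i => ?_, ?_, ?_⟩
    · rw [Finset.mem_range, Nat.lt_succ_iff]
      have h := abs_le_nn (rv b) i
      have e : |rv b i| = (b i : ℝ) := abs_of_nonneg (Nat.cast_nonneg _)
      rw [e] at h
      exact_mod_cast h.trans hup
    · have : ((T - n : ℕ) : ℝ) ^ 2 ≤ (K1H25.HF.sq b : ℝ) := by
        rw [← nn_rv, Nat.cast_sub (by omega)]
        exact pow_le_pow_left₀ (by linarith) hlow 2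
      exact_mod_cast this
    · have : (K1H25.HF.sq b : ℝ) ≤ (T : ℝ) ^ 2 := by
        rw [← nn_rv]
        exact pow_le_pow_left₀ (nn_nonneg _) hup 2
      exact_mod_cast this
  obtain ⟨hl1, hl2⟩ := h3 n T M b hn hT hM hbN
  set l := lv M b with hl
  have hsq0 : (0 : ℝ) < K1H25.HF.sq b := by
    rw [← nn_rv]
    have : 0 < nn (rv b) := by linarith
    positivity
  -- (2)
  have hl3 : ∀ i, (l i : ℝ) ≤ 16 / 9 * M * (k i / K) := by
    intro i
    have e : (l i : ℝ) * (K1H25.HF.sq b : ℝ) = (M : ℝ) * (b i : ℝ) ^ 2 := by exact_mod_cast hl2 i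
    have e2 : (b i : ℝ) ^ 2 ≤ (T : ℝ) ^ 2 * (k i / K) := by
      rw [← uv_sq, ← mul_pow]
      exact pow_le_pow_left₀ (Nat.cast_nonneg _) (hfl i).1 2
    have e3 : 9 / 16 * (T : ℝ) ^ 2 ≤ K1H25.HF.sq b := by
      rw [← nn_rv]
      have : 3 / 4 * (T : ℝ) ≤ nn (rv b) := by linarith
      nlinarith
    have e4 : 0 ≤ (k i : ℝ) / K := by positivity
    have e5 : (l i : ℝ) * (9 / 16 * (T : ℝ) ^ 2) ≤ (l i : ℝ) * K1H25.HF.sq b :=
      mul_le_mul_of_nonneg_left e3 (Nat.cast_nonneg _)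
    have e6 : (l i : ℝ) * (9 / 16 * (T : ℝ) ^ 2) ≤ M * ((T : ℝ) ^ 2 * (k i / K)) := by
      refine e5.trans ?_
      rw [e]
      exact mul_le_mul_of_nonneg_left e2 (by linarith)
    have e7 : (l i : ℝ) * (9 / 16) * (T : ℝ) ^ 2 ≤ (M * (k i / K)) * (T : ℝ) ^ 2 := by
      calc _ = (l i : ℝ) * (9 / 16 * (T : ℝ) ^ 2) := by ring
        _ ≤ _ := e6
        _ = _ := by ring
    have e8 := le_of_mul_le_mul_right e7 (by positivity)
    linarith
  have hlk : ∀ i, l i ≤ k i := by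
    intro i
    have : (l i : ℝ) ≤ k i := by
      refine (hl3 i).trans ?_
      rw [mul_div_assoc', div_le_iff₀ hK0]
      have : (0 : ℝ) ≤ k i := Nat.cast_nonneg _
      nlinarith
    exact_mod_cast this
  -- j
  set j : MI n := k - l with hj
  have hjl : j + l = k := by
    funext i
    simp only [hj, Pi.add_apply, Pi.sub_apply]
    have := hlk i
    omega
  have hji : ∀ i, (j i : ℝ) = k i - l i := by
    intro i
    have : j i + l i = k i := congrFun hjl i
    have h' : (j i : ℝ) + l i = k i := by exact_mod_cast this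
    linarith
  have htj : tot j + M = tot k := by
    rw [← hl1, ← tot_add, hjl]
  have htj' : (tot j : ℝ) = K - M := by
    have : (tot j : ℝ) + M = K := by rw [hKdef, ← htj]; push_cast; ring
    linarith
  have hj0 : (0 : ℝ) < tot j := by rw [htj']; linarith
  have hj0' : 0 < tot j := by exact_mod_cast hj0
  have hl0' : 0 < tot l := by rw [hl1]; exact hM0
  have hsl : ∑ i, (l i : ℝ) = M := by rw [← tot_cast, hl1]
  have hsk : ∑ i, (k i : ℝ) = K := by rw [← tot_cast]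
  -- distance of directions of k and j
  have hkj : nn (uv k - uv j) ≤ 1 / T := by
    apply nn_le_of_sq (by positivity)
    have hKM : 0 < K - M := by linarith
    calc ∑ i, (uv k - uv j) i ^ 2 ≤ ∑ i, (K * l i + M * k i) / (K * (K - M)) := by
          apply Finset.sum_le_sum
          intro i _
          refine (sq_sqrt_sub_le (by positivity) (by positivity)).trans ?_
          rw [htj', hji]
          have e : (k i : ℝ) / K - (k i - l i) / (K - M) = (K * l i - M * k i) / (K * (K - M)) := by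
            field_simp
            ring
          rw [e, abs_div, abs_of_pos (mul_pos hK0 hKM)]
          apply div_le_div_of_nonneg_right _ (mul_pos hK0 hKM).le
          have a1 : (0 : ℝ) ≤ K * l i := by positivity
          have a2 : (0 : ℝ) ≤ M * k i := by positivity
          rw [abs_le]; constructor <;> linarith
      _ = 2 * M / (K - M) := by
          rw [← Finset.sum_div, Finset.sum_add_distrib, ← Finset.mul_sum, ← Finset.mul_sum, hsl, hsk]
          field_simp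
          ring
      _ ≤ (1 / (T : ℝ)) ^ 2 := by
          rw [div_pow, one_pow, div_le_div_iff₀ hKM (by positivity)]
          linarith
  -- distance of l and k
  have hul : uv l = (nn (rv b))⁻¹ • rv b := uv_lv h3 hn hT hM hM0 hbN
  have hbk : nn ((T : ℝ)⁻¹ • rv b - uv k) ≤ n / T := by
    have e : (T : ℝ)⁻¹ • rv b - uv k = -((T : ℝ)⁻¹ • ((T : ℝ) • uv k - rv b)) := by
      rw [smul_sub, smul_smul, inv_mul_cancel₀ hT0.ne', one_smul, neg_sub]
    rw [e, nn_neg, nn_smul, abs_of_pos (by positivity), div_eq_inv_mul]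
    exact mul_le_mul_of_nonneg_left hd (by positivity)
  have hlk2 : nn (uv l - uv k) ≤ 2 * n / T := by
    have := nn_tri (uv l) ((T : ℝ)⁻¹ • rv b) (uv k)
    have h4 := net_norm hn hT hbN
    rw [← hul] at h4
    calc _ ≤ _ := this
      _ ≤ n / T + n / T := add_le_add h4 hbk
      _ = _ := by ring
  have hlj : nn (uv l - uv j) ≤ 3 * n / T := by
    have := nn_tri (uv l) (uv k) (uv j)
    calc _ ≤ _ := this
      _ ≤ 2 * n / T + 1 / T := add_le_add hlk2 hkj
      _ = (2 * n + 1) / T := by ring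
      _ ≤ 3 * n / T := by
        apply div_le_div_of_nonneg_right _ hT0.le
        linarith
  have hup2 : hell2 l j ≤ 9 * n ^ 2 / T ^ 2 := by
    rw [hell2_eq]
    calc nn (uv l - uv j) ^ 2 ≤ (3 * n / T) ^ 2 := pow_le_pow_left₀ (nn_nonneg _) hlj 2
      _ = _ := by ring
  have hrat : ∀ i, (l i : ℝ) / (tot l : ℝ) ≤ 4 * ((j i : ℝ) / (tot j : ℝ)) := by
    intro i
    rw [hl1, htj', hji]
    have hKM : 0 < K - M := by linarith
    have hki : (0 : ℝ) ≤ (k i : ℝ) / K := by positivity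
    have a1 : (l i : ℝ) / M ≤ 16 / 9 * (k i / K) := by
      rw [div_le_iff₀ (by linarith)]
      have := hl3 i
      linarith
    have a2 : 5 / 9 * ((k i : ℝ) / K) ≤ (k i - l i) / (K - M) := by
      rw [le_div_iff₀ hKM]
      have := hl3 i
      have e : (k i : ℝ) = (k i / K) * K := by field_simp
      have e2 : 5 / 9 * ((k i : ℝ) / K) * (K - M) = 5 / 9 * ((k i / K) * K) - 5 / 9 * (M * (k i / K)) := by ring
      rw [e2, ← e]
      have e3 : (M : ℝ) * (k i / K) ≤ 1 / 4 * k i := by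
        rw [mul_div_assoc', div_le_iff₀ hK0]
        have : (0 : ℝ) ≤ k i := Nat.cast_nonneg _
        nlinarith
      have e4 : (0 : ℝ) ≤ M * (k i / K) := by positivity
      have e5 : (0 : ℝ) ≤ k i := Nat.cast_nonneg _
      linarith
    linarith
  have hkap : Real.exp (-(9 / 2) * (9 * (n : ℝ) ^ 2 * M / (T : ℝ) ^ 2)) ≤ kap j l := by
    refine le_trans ?_ (h1 n j l hj0' hl0' hrat)
    apply Real.exp_le_exp.2
    rw [hl1]
    have : (M : ℝ) * hell2 l j ≤ M * (9 * n ^ 2 / T ^ 2) := mul_le_mul_of_nonneg_left hup2 (by linarith)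
    have e : (M : ℝ) * (9 * n ^ 2 / T ^ 2) = 9 * (n : ℝ) ^ 2 * M / (T : ℝ) ^ 2 := by ring
    rw [e] at this
    linarith
  have hkap2 : Real.exp (-41 * (n : ℝ) ^ 2 * (M : ℝ) / (T : ℝ) ^ 2) ≤ kap j l := by
    refine le_trans ?_ hkap
    apply Real.exp_le_exp.2
    have h0 : 0 ≤ (n : ℝ) ^ 2 * M / (T : ℝ) ^ 2 := by positivity
    have e : -(9 / 2) * (9 * (n : ℝ) ^ 2 * M / (T : ℝ) ^ 2) = -(81 / 2) * ((n : ℝ) ^ 2 * M / (T : ℝ) ^ 2) := by ring
    have e2 : -41 * (n : ℝ) ^ 2 * (M : ℝ) / (T : ℝ) ^ 2 = -41 * ((n : ℝ) ^ 2 * M / (T : ℝ) ^ 2) := by ring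
    rw [e, e2]
    linarith
  refine ⟨hbN, hlk, hkap2, ?_⟩
  intro b' hb' hcol hne
  obtain ⟨hm1, hm2⟩ := h3 n T M b' hn hT hM hb'
  set l' := lv M b' with hl'
  have hl'0 : 0 < tot l' := by rw [hm1]; exact hM0
  have hsl' : ∑ i, (l' i : ℝ) = M := by rw [← tot_cast, hm1]
  -- separation
  have hsep : 14 * (n : ℝ) ≤ nn (rv b' - rv b) := by
    obtain ⟨i, hi⟩ : ∃ i, b' i ≠ b i := by
      by_contra hcon
      push Not at hcon
      exact hne (funext hcon)
    have hc := hcol i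
    have h5 : 14 * (n : ℤ) ≤ |(b' i : ℤ) - b i| := by
      have hdvd : ((14 * n : ℕ) : ℤ) ∣ (b' i : ℤ) - b i := by
        have : (b i : ℤ) ≡ (b' i : ℤ) [ZMOD ((14 * n : ℕ) : ℤ)] := by
          rw [Int.natCast_modEq_iff]
          exact hc.symm
        exact this.dvd
      have hne' : (b' i : ℤ) - b i ≠ 0 := by
        intro h; apply hi; omega
      have := Int.le_of_dvd (abs_pos.2 hne') ((dvd_abs _ _).2 hdvd)
      push_cast at this
      exact this
    have h6 : (14 * (n : ℝ)) ≤ |(b' i : ℝ) - b i| := by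
      have : ((14 * (n : ℤ) : ℤ) : ℝ) ≤ ((|(b' i : ℤ) - b i| : ℤ) : ℝ) := by exact_mod_cast h5
      push_cast at this
      exact this
    exact h6.trans (abs_le_nn (rv b' - rv b) i)
  have hul' : uv l' = (nn (rv b'))⁻¹ • rv b' := uv_lv h3 hn hT hM hM0 hb'
  have h4 := net_norm hn hT hb'
  rw [← hul'] at h4
  have h5 : 12 * (n : ℝ) / T ≤ nn (uv l' - uv k) := by
    have e1 : nn ((T : ℝ)⁻¹ • rv b' - (T : ℝ)⁻¹ • rv b) = (T : ℝ)⁻¹ * nn (rv b' - rv b) := by
      rw [← smul_sub, nn_smul, abs_of_pos (by positivity)]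
    have e2 : 14 * (n : ℝ) / T ≤ nn ((T : ℝ)⁻¹ • rv b' - (T : ℝ)⁻¹ • rv b) := by
      rw [e1, div_eq_inv_mul]
      exact mul_le_mul_of_nonneg_left hsep (by positivity)
    have e3 := nn_tri ((T : ℝ)⁻¹ • rv b') (uv l') ((T : ℝ)⁻¹ • rv b)
    have e4 := nn_tri (uv l') (uv k) ((T : ℝ)⁻¹ • rv b)
    rw [nn_comm ((T : ℝ)⁻¹ • rv b') (uv l')] at e3
    rw [nn_comm (uv k) ((T : ℝ)⁻¹ • rv b)] at e4
    have e5 : 12 * (n : ℝ) / T = 14 * (n : ℝ) / T - n / T - n / T := by ring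
    rw [e5]
    linarith
  have htk : tot (j + l') = tot k := by rw [tot_add, hm1, htj]
  have h6 : nn (uv (j + l') - uv k) ≤ 1 / T := by
    apply nn_le_of_sq (by positivity)
    calc ∑ i, (uv (j + l') - uv k) i ^ 2 ≤ ∑ i, ((l' i : ℝ) + l i) / K := by
          apply Finset.sum_le_sum
          intro i _
          refine (sq_sqrt_sub_le (by positivity) (by positivity)).trans ?_
          rw [htk, ← sub_div, abs_div, abs_of_pos hK0]
          apply div_le_div_of_nonneg_right _ hK0.le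
          have e : (((j + l') i : ℕ) : ℝ) - k i = l' i - l i := by
            rw [Pi.add_apply]; push_cast; rw [hji]; ring
          rw [e]
          have a1 : (0 : ℝ) ≤ l' i := Nat.cast_nonneg _
          have a2 : (0 : ℝ) ≤ l i := Nat.cast_nonneg _
          rw [abs_le]; constructor <;> linarith
      _ = 2 * M / K := by
          rw [← Finset.sum_div, Finset.sum_add_distrib, hsl, hsl']
          ring
      _ ≤ (1 / (T : ℝ)) ^ 2 := by
          rw [div_pow, one_pow, div_le_div_iff₀ hK0 (by positivity)]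
          nlinarith
  have h7 : 11 * (n : ℝ) / T ≤ nn (uv l' - uv (j + l')) := by
    have e3 := nn_tri (uv l') (uv (j + l')) (uv k)
    have e4 : 1 / (T : ℝ) ≤ n / T := div_le_div_of_nonneg_right hn' hT0.le
    have e5 : 11 * (n : ℝ) / T = 12 * (n : ℝ) / T - n / T := by ring
    rw [e5]
    linarith
  have h8 : 121 * n ^ 2 / T ^ 2 ≤ hell2 l' (j + l') := by
    rw [hell2_eq]
    calc 121 * (n : ℝ) ^ 2 / T ^ 2 = (11 * (n : ℝ) / T) ^ 2 := by ring
      _ ≤ _ := pow_le_pow_left₀ (by positivity) h7 2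
  calc kap j l' ≤ Real.exp (-(1 / 2) * (tot l' : ℝ) * hell2 l' (j + l')) := h2 n j l' hl'0
    _ ≤ Real.exp (-(M : ℝ) / (T : ℝ) ^ 2 + -41 * (n : ℝ) ^ 2 * (M : ℝ) / (T : ℝ) ^ 2) := by
        apply Real.exp_le_exp.2
        rw [hm1]
        have a1 : (M : ℝ) * (121 * n ^ 2 / T ^ 2) ≤ M * hell2 l' (j + l') :=
          mul_le_mul_of_nonneg_left h8 (by linarith)
        have a2 : (M : ℝ) / T ^ 2 ≤ n ^ 2 * M / T ^ 2 := by
          apply div_le_div_of_nonneg_right _ (by positivity)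
          have hn2 : (1 : ℝ) ≤ (n : ℝ) ^ 2 := by nlinarith
          nlinarith
        have a3 : 0 ≤ (n : ℝ) ^ 2 * M / T ^ 2 := by positivity
        have e1 : (M : ℝ) * (121 * n ^ 2 / T ^ 2) = 121 * (n ^ 2 * M / T ^ 2) := by ring
        have e2 : -41 * (n : ℝ) ^ 2 * (M : ℝ) / (T : ℝ) ^ 2 = -41 * ((n : ℝ) ^ 2 * M / (T : ℝ) ^ 2) := by ring
        have e3 : -(M : ℝ) / (T : ℝ) ^ 2 = -((M : ℝ) / (T : ℝ) ^ 2) := by ring
        rw [e1] at a1
        rw [e2, e3]
        linarith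
    _ = Real.exp (-(M : ℝ) / (T : ℝ) ^ 2) * Real.exp (-41 * (n : ℝ) ^ 2 * (M : ℝ) / (T : ℝ) ^ 2) :=
        Real.exp_add _ _
    _ ≤ _ := mul_le_mul_of_nonneg_left hkap2 (Real.exp_pos _).le

theorem t_NETK (h1 : S_KUP) (h2 : S_KLO) (h3 : S_LV) : S_NETK := main_t h1 h2 h3

end K1H43.HFN
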